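import Pool.Agent.helper65.GD.SpecE

/-!
# gdm:NUB — Goodman's numbers
-/

set_option autoImplicit false

namespace Pool.Agent.GD

open Finset Metric Filter Topology

theorem NUB_AA (p n j : ℕ) (r s : ℕ) (hp : p = j + r) (hn : n = p + 1 + s) :
    AA p n j = (2 * (j : ℝ) * ((n + p).factorial : ℝ)) /
      ((r.factorial : ℝ) * ((p + j).factorial : ℝ) * (s.factorial : ℝ) * (((r : ℝ) + 1 + s) * (2 * j + r + 1 + s))) := by
  unfold AA
  have h1 : p - j = r := by omega
  have h2 : n - p - 1 = s := by omega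
  rw [h1, h2]
  have h3 : (n : ℝ) ^ 2 - (j : ℝ) ^ 2 = ((r : ℝ) + 1 + s) * (2 * j + r + 1 + s) := by
    rw [hn, hp]
    push_cast
    ring
  rw [h3]

theorem NUB_base (p s : ℕ) :
    ((p : ℝ) + 1 + s + 1 - p) * AA p (p + 1 + s + 1) p = ((p : ℝ) + 1 + s + p) * AA p (p + 1 + s) p := by
  rw [NUB_AA p (p + 1 + s + 1) p 0 (s + 1) (by omega) (by omega), NUB_AA p (p + 1 + s) p 0 s (by omega) rfl]
  have e1 : (p + 1 + s + 1 + p).factorial = (p + 1 + s + p + 1) * (p + 1 + s + p).factorial := by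
    rw [← Nat.factorial_succ]
    congr 1
    omega
  rw [e1, Nat.factorial_succ s, Nat.factorial_zero]
  have hN : ((p + 1 + s + p).factorial : ℝ) ≠ 0 := by exact_mod_cast Nat.factorial_ne_zero _
  have hP : ((p + p).factorial : ℝ) ≠ 0 := by exact_mod_cast Nat.factorial_ne_zero _
  have hs : (s.factorial : ℝ) ≠ 0 := by exact_mod_cast Nat.factorial_ne_zero _
  push_cast
  have h1 : (s : ℝ) + 1 ≠ 0 := by positivity
  have h2 : (0 : ℝ) + 1 + (s + 1) ≠ 0 := by positivity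
  have h3 : (2 : ℝ) * p + 0 + 1 + (s + 1) ≠ 0 := by positivity
  have h4 : (0 : ℝ) + 1 + s ≠ 0 := by positivity
  have h5 : (2 : ℝ) * p + 0 + 1 + s ≠ 0 := by positivity
  rw [← mul_div_assoc, ← mul_div_assoc, div_eq_div_iff (by positivity) (by positivity)]
  ring

theorem NUB_key (j r s : ℕ) :
    (((j + 1 + r + 1 + s : ℕ) : ℝ) + 1 - j) * AA (j + 1 + r) (j + 1 + r + 1 + s + 1) j * (j + 1) -
      (((j + 1 + r + 1 + s : ℕ) : ℝ) + j) * AA (j + 1 + r) (j + 1 + r + 1 + s) j * (j + 1) =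
    j * ((((j + 1 + r + 1 + s : ℕ) : ℝ) + j + 2) * AA (j + 1 + r) (j + 1 + r + 1 + s + 1) (j + 1) -
      (((j + 1 + r + 1 + s : ℕ) : ℝ) - j - 1) * AA (j + 1 + r) (j + 1 + r + 1 + s) (j + 1)) := by
  rw [NUB_AA (j + 1 + r) (j + 1 + r + 1 + s + 1) j (r + 1) (s + 1) (by omega) (by omega),
    NUB_AA (j + 1 + r) (j + 1 + r + 1 + s) j (r + 1) s (by omega) (by omega),
    NUB_AA (j + 1 + r) (j + 1 + r + 1 + s + 1) (j + 1) r (s + 1) (by omega) (by omega),
    NUB_AA (j + 1 + r) (j + 1 + r + 1 + s) (j + 1) r s (by omega) (by omega)]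
  have e1 : (j + 1 + r + 1 + s + 1 + (j + 1 + r)).factorial =
      (j + 1 + r + 1 + s + (j + 1 + r) + 1) * (j + 1 + r + 1 + s + (j + 1 + r)).factorial := by
    rw [← Nat.factorial_succ]
    congr 1
    omega
  have e2 : (j + 1 + r + (j + 1)).factorial = (j + 1 + r + j + 1) * (j + 1 + r + j).factorial := by
    rw [← Nat.factorial_succ]
    congr 1
  rw [e1, e2, Nat.factorial_succ s, Nat.factorial_succ r]
  obtain ⟨N, hN⟩ : ∃ N : ℝ, N = ((j + 1 + r + 1 + s + (j + 1 + r)).factorial : ℝ) := ⟨_, rfl⟩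
  obtain ⟨Q, hQ⟩ : ∃ Q : ℝ, Q = ((j + 1 + r + j).factorial : ℝ) := ⟨_, rfl⟩
  obtain ⟨R, hR⟩ : ∃ R : ℝ, R = (r.factorial : ℝ) := ⟨_, rfl⟩
  obtain ⟨S, hS⟩ : ∃ S : ℝ, S = (s.factorial : ℝ) := ⟨_, rfl⟩
  have hN0 : 0 < N := by rw [hN]; exact_mod_cast Nat.factorial_pos _
  have hQ0 : 0 < Q := by rw [hQ]; exact_mod_cast Nat.factorial_pos _
  have hR0 : 0 < R := by rw [hR]; exact_mod_cast Nat.factorial_pos _
  have hS0 : 0 < S := by rw [hS]; exact_mod_cast Nat.factorial_pos _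
  push_cast
  rw [← hN, ← hQ, ← hR, ← hS]
  have hj0 : (0 : ℝ) ≤ j := Nat.cast_nonneg j
  have hr0 : (0 : ℝ) ≤ r := Nat.cast_nonneg r
  have hs0 : (0 : ℝ) ≤ s := Nat.cast_nonneg s
  generalize (j : ℝ) = x at *
  generalize (r : ℝ) = y at *
  generalize (s : ℝ) = z at *
  field_simp
  ring

theorem NUB : NUB_stmt := by
  intro p n j hj hjp hpn
  obtain ⟨s, rfl⟩ : ∃ s, n = p + 1 + s := ⟨n - p - 1, by omega⟩
  obtain ⟨d, hd⟩ : ∃ d, p = j + d := ⟨p - j, by omega⟩
  induction d generalizing j with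
  | zero =>
    have hpj : j = p := by omega
    subst hpj
    have hb := NUB_base j s
    have hB : ∀ n : ℕ, BB j n j = AA j n j := by
      intro n
      unfold BB
      rw [Ioc_self, sum_empty]
      ring
    rw [hB, hB]
    push_cast
    linarith
  | succ d ih =>
    have h := ih (j + 1) (by omega) (by omega) (by omega)
    have hB : ∀ n : ℕ, BB p n j = AA p n j + AA p n (j + 1) + BB p n (j + 1) := by
      intro n
      unfold BB
      have e : Ioc j p = insert (j + 1) (Ioc (j + 1) p) := by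
        ext q
        simp only [mem_Ioc, mem_insert]
        omega
      rw [e, sum_insert (by simp)]
      ring
    have hk := NUB_key j d s
    have hp : p = j + 1 + d := by omega
    rw [hB, hB]
    rw [← hp] at hk
    have hj1 : ((j : ℝ) + 1) ≠ 0 := by positivity
    have key : ((j : ℝ) + 1) * ((((p + 1 + s : ℕ) : ℝ) + 1) * AA p (p + 1 + s + 1) j -
        ((p + 1 + s : ℕ) : ℝ) * AA p (p + 1 + s) j) =
        ((j : ℝ) + 1) * (j * (AA p (p + 1 + s + 1) j + AA p (p + 1 + s + 1) (j + 1) +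
          BB p (p + 1 + s + 1) (j + 1) + (AA p (p + 1 + s) j + AA p (p + 1 + s) (j + 1) +
          BB p (p + 1 + s) (j + 1)))) := by
      push_cast at h hk ⊢
      have h' := congrArg (fun t => (j : ℝ) * t) h
      linarith
    exact mul_left_cancel₀ hj1 key

end Pool.Agent.GD
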